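import Mathlib
import Pool.Agent.R298.Fr.D

/-!
Let `A` be a Fréchet algebra, `X` a flat left and `Y` a flat right Fréchet module. Then the
bimodule `X ⊗̂ Y` is flat.
-/

set_option autoImplicit false

namespace Pool.Agent.Results.MP_9bb9cf_an.TensorFlat

open Pool.Agent.Helper832.PN Pool.Agent.R298.Fr

universe u

/-- The completed projective tensor product `X ⊗̂ Y` of Fréchet modules exists as a Fréchet
bimodule (so that the main theorem below is not vacuous). -/
theorem tensor_exists {A : Type u} [NonUnitalRing A] [Module ℂ A] [UniformSpace A] [IsFrAlg A]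
    {X : Type u} [AddCommGroup X] [Module ℂ X] [UniformSpace X] [IsFrechet X]
    {Y : Type u} [AddCommGroup Y] [Module ℂ Y] [UniformSpace Y] [IsFrechet Y]
    (l : A → X → X) (r : Y → A → Y) (hl : IsLeftMod l) (hr : IsRightMod r) :
    ∃ (V : Type u) (_ : AddCommGroup V) (_ : Module ℂ V) (_ : UniformSpace V)
      (_ : IsFrechet V) (t : X → Y → V) (lV : A → V → V) (rV : V → A → V),
      IsProjTensor t ∧ IsBimod lV rV ∧ (∀ a x y, lV a (t x y) = t (l a x) y) ∧
      ∀ x y a, rV (t x y) a = t x (r y a) := by
  obtain ⟨lV, rV, hV, h1, h2⟩ := exists_bimod hl hr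
  exact ⟨PT X Y, inferInstance, inferInstance, inferInstance, inferInstance, pt, lV, rV,
    isProjTensor_pt, hV, h1, fun x y a => h2 a x y⟩

/-- Let `A` be a Fréchet algebra (not necessarily unital), `X` a left Fréchet module with action
`l` and `Y` a right Fréchet module with action `r`, both flat. Let `V = X ⊗̂ Y` be the completed
projective tensor product with the bimodule structure `a (x ⊗ y) = (a x) ⊗ y`,
`(x ⊗ y) a = x ⊗ (y a)`. Then `V` is flat in `A`-mod-`A`. -/
theorem result {A : Type u} [NonUnitalRing A] [Module ℂ A] [UniformSpace A] [IsFrAlg A]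
    {X : Type u} [AddCommGroup X] [Module ℂ X] [UniformSpace X] [IsFrechet X]
    {Y : Type u} [AddCommGroup Y] [Module ℂ Y] [UniformSpace Y] [IsFrechet Y]
    {V : Type u} [AddCommGroup V] [Module ℂ V] [UniformSpace V] [IsFrechet V]
    (l : A → X → X) (r : Y → A → Y) (hl : IsLeftMod l) (hr : IsRightMod r)
    (hX : FlatL l) (hY : FlatR r) (t : X → Y → V) (ht : IsProjTensor t)
    (lV : A → V → V) (rV : V → A → V) (hV : IsBimod lV rV)
    (hlV : ∀ a x y, lV a (t x y) = t (l a x) y) (hrV : ∀ x y a, rV (t x y) a = t x (r y a)) :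
    FlatB lV rV :=
  flatB_tensor hl hX hr hY ht hV hlV hrV

end Pool.Agent.Results.MP_9bb9cf_an.TensorFlat
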